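import Pool.Agent.helper90.KS.Defs

/-!
# MP_26dbae_co: `f_2(n, K_{s,t}^1) = Θ(n^(1+1/s))`: statements of the modules

`K_{s,t}^1` is the 1-subdivision of `K_{s,t}`. `N` is the number of vertices of the (abstract) pair
graph, `N(v)` the set of neighbours of `v`, `L(v) = Ls A C v`, `C = C0 s t`, `Δ` a bound for the
degrees. Any statement of this file or of `Pool/Agent/helper23/TH/Spec.lean` may be used as a
hypothesis of a module (no circles).
-/

set_option autoImplicit false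

open scoped BigOperators

namespace Pool.Agent.KS

open Pool.Agent.helper23.TH

noncomputable section

open Classical

/-! ## General tools -/

/-- GR. Greedy choice, one index after the other: the `f j` already chosen exclude at most
`E * card ι` elements of `Y i`. -/
def GR_stmt : Prop := ∀ (ι V : Type) [Fintype ι] (Y : ι → Finset V) (r : V → V → Prop) (E : ℕ),
  (∀ x y, r x y → r y x) →
  (∀ i j, i ≠ j → ∀ y ∈ Y j, ((Y i).filter fun x => r x y).card ≤ E) →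
  (∀ i, E * Fintype.card ι < (Y i).card) →
  ∃ f : ι → V, (∀ i, f i ∈ Y i) ∧ ∀ i j, i ≠ j → ¬ r (f i) (f j)

/-- RA. Ramsey's theorem for two colours (induction on `a + b`: a vertex `x` of `Q` has in `Q` at
least `R(a-1, b)` vertices `y ≠ x` with `g x y` or at least `R(a, b-1)` with `¬ g x y`). -/
def RA_stmt : Prop := ∀ a b : ℕ, ∃ R : ℕ, ∀ (V : Type) (Q : Finset V) (g : V → V → Prop),
  (∀ x y, g x y → g y x) → R ≤ Q.card →
  (∃ f : Fin a → V, Function.Injective f ∧ (∀ i, f i ∈ Q) ∧ ∀ i j, i ≠ j → g (f i) (f j)) ∨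
  ∃ f : Fin b → V, Function.Injective f ∧ (∀ i, f i ∈ Q) ∧ ∀ i j, i ≠ j → ¬ g (f i) (f j)

/-- RT (from RA). `R = max(R(a, s), s, 1)`, `x = #Q`. If `x < R` the last term is enough. Otherwise
count the functions `h : Fin R → Q`: at most `R^2 x^(R-1)` of them are not injective; for an
injective `h` there is by RA an injective `e : Fin s → Fin R` such that `h ∘ e` is one of the tuples
counted; there are at most `R^s` maps `e` and for given `e` and `u` there are `x^(R-s)` functions `h`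
with `h ∘ e = u`. So `x^R ≤ R^s a x^(R-s) + R^2 x^(R-1)`. -/
def RT_stmt : Prop := ∀ s a : ℕ, 1 ≤ s → ∃ R : ℕ, 1 ≤ R ∧ ∀ (V : Type) [Fintype V] (Q : Finset V)
  (g : V → V → Prop), (∀ x y, g x y → g y x) →
  (¬ ∃ f : Fin a → V, Function.Injective f ∧ (∀ i, f i ∈ Q) ∧ ∀ i j, i ≠ j → g (f i) (f j)) →
  Q.card ^ s ≤ R ^ s * (Finset.univ.filter fun u : Fin s → V => (∀ i, u i ∈ Q) ∧
    ∀ i j, i ≠ j → u i ≠ u j ∧ ¬ g (u i) (u j)).card + R ^ 2 * Q.card ^ (s - 1)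

/-- MO. Moments. For `u : Fin s → V` let `V(u) = {v : ∀ i, u i ∈ L v}`. Then `Σ_u #V(u) = Σ_v (#L v)^s`
and `Σ_u (#V(u))^2 = Σ_v Σ_v' (#(L v ∩ L v'))^s`; Cauchy-Schwarz over the `N^s` tuples `u`, and
`(Σ_v #L v)^s ≤ N^(s-1) Σ_v (#L v)^s` (`inner_le_nnorm_mul_nnorm` or
`Real.pow_sum_div_card_le_sum_pow`). -/
def MO_stmt : Prop := ∀ (V : Type) [Fintype V] (L : V → Finset V) (s : ℕ), 1 ≤ s →
  (∑ v, (L v).card) ^ (2 * s) ≤
    (Fintype.card V) ^ (3 * s - 2) * ∑ v, ∑ v', (L v ∩ L v').card ^ s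

/-- SB. Termwise, with `c = #(L v ∩ L v')`: `l Δ c^(s-1) ≤ c^s` if `c ≥ l Δ`, otherwise
`l Δ c^(s-1) ≤ (l Δ)^(s-1) c`. `Σ_v Σ_v' c = Σ_u (#L u)^2 ≤ N Δ^4`, and `Δ^(s-1) Δ^4 ≤ Δ^(2s)` as
`s ≥ 3`. -/
def SB_stmt : Prop := ∀ (V : Type) [Fintype V] (L : V → Finset V) (s Δ l : ℕ), 3 ≤ s → 1 ≤ Δ →
  1 ≤ l → (∀ v u, u ∈ L v → v ∈ L u) → (∀ v, (L v).card ≤ Δ ^ 2) →
  l * (Δ * ∑ v, ∑ v', (L v ∩ L v').card ^ (s - 1)) ≤
    ∑ v, ∑ v', (L v ∩ L v').card ^ s + l ^ (s - 1) * (Fintype.card V * Δ ^ (2 * s))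

/-! ## The abstract pair graph -/

/-- NL. Basic counts. (1) one neighbour with first entry `p x`, one with second entry `q x`.
(2), (3): choose for every such `u` a common neighbour of `v` and `u`; by `inj1` (`inj2`) this is an
injective map into `N(v)`. (4) from (2), (3). (5) every `u ∈ L(v)` is a neighbour of a neighbour of
`v`. (6) `v`, `u` have a common neighbour; (7) is `inj1`, `inj2`. -/
def NL_stmt : Prop := ∀ (V X : Type) [Fintype V] (A : V → V → Prop) (p q : V → X) (Δ C : ℕ),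
  PG A p q → (∀ v, deg A v ≤ Δ) →
  (∀ w x, (Finset.univ.filter fun m => A w m ∧ Co p q m x).card ≤ 2) ∧
  (∀ v x, (Finset.univ.filter fun u => Lg A C v u ∧ p u = x).card ≤ Δ) ∧
  (∀ v x, (Finset.univ.filter fun u => Lg A C v u ∧ q u = x).card ≤ Δ) ∧
  (∀ v w, (Finset.univ.filter fun u => Lg A C v u ∧ Co p q u w).card ≤ 2 * Δ) ∧
  (∀ v, (Ls A C v).card ≤ Δ ^ 2) ∧
  (∀ v u, Lg A C v u → Lg A C u v ∧ ¬ Co p q v u) ∧
  ∀ m u u', A m u → A m u' → u ≠ u' → ¬ Co p q u u'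

/-- HE (from GR, NL (1)). `s + t` vertices without collisions, any two of them with at least `C0 s t`
common neighbours. `u i = f (castAdd i)`, `v j = f (natAdd j)`. GR for `ι = Fin s × Fin t`, `r = Co p q`,
`E = 2`, and `Y (i, j)` the set of the common neighbours of `u i`, `v j` which do not collide with any
`f a`; it has at least `C0 s t - 2 (s + t) > 2 s t` elements. -/
def HE_stmt : Prop := ∀ (s t : ℕ) (V X : Type) [Fintype V] (A : V → V → Prop) (p q : V → X),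
  PG A p q → (∃ f : Fin (s + t) → V, ∀ a b, a ≠ b →
    ¬ Co p q (f a) (f b) ∧ C0 s t ≤ cd A (f a) (f b)) → Emb A p q s t

/-- LT (from HE, NL, `TU_stmt`). Many light pairs. For every `m` apply `TU` to the subtype of `N(m)`
with `g x y = (C0 s t ≤ cd A x y)` and `s + t` points (a family of `s + t` points as excluded in `TU`
gives `Emb` by HE and NL (7)): `deg(m)^2 ≤ (s + t) (deg(m) + #{(x, y) ∈ N(m)^2 : x ≠ y, cd < C0})`.
Sum over `m`: the last sum is `Σ_{x ≠ y, cd < C0} cd A x y ≤ C0 Σ_x #L(x)`. Cauchy-Schwarz. -/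
def LT_stmt : Prop := ∀ (s t : ℕ) (V X : Type) [Fintype V] (A : V → V → Prop) (p q : V → X),
  1 ≤ s → 1 ≤ t → PG A p q → ¬ Emb A p q s t →
  (∑ v, deg A v) ^ 2 ≤ Fintype.card V *
    ((s + t) * (∑ v, deg A v + C0 s t * ∑ v, (Ls A (C0 s t) v).card))

/-- CB (from NL). Conflicts for given centres, `E = s^2 (8 C + 2) + s (C + 4)`. Let
`c = #(L(v) ∩ L(v'))`. For given `u ∈ L(v) ∩ L(v')` there are at most `(8 C + 2) Δ` elements
`u' ∈ L(v) ∩ L(v')` with `Bp v v' u u'`: `Co u u'`: `2 Δ` (NL (4)); second (third) part: fewer than `C`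
vertices `m`, for each at most `2 Δ` elements `u'` (NL (4)); fourth (fifth) part: fewer than `C` vertices
`m`, `u' ∈ N(m)`; last part: fewer than `C` vertices `m`, two vertices `m'` (NL (1)), `u' ∈ N(m')`. And
there are at most `(C + 4) Δ` elements `u` with `Bs v v' u`. Then at most `(8 C + 2) Δ c^(s-1)` tuples `u`
have a conflict `Bp v v' (u i) (u i')` for given `i ≠ i'`, and at most `(C + 4) Δ c^(s-1)` have
`Bs v v' (u i)` for given `i`. (General fact: if `B` is a relation on a finite set `S` with at most `k`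
elements `y` with `B x y` for all `x`, then at most `k (#S)^(s-1)` tuples have `B (u i) (u i')`.) -/
def CB_stmt : Prop := ∀ s C : ℕ, ∃ E : ℕ, ∀ (V X : Type) [Fintype V] (A : V → V → Prop)
  (p q : V → X) (Δ : ℕ), PG A p q → (∀ v, deg A v ≤ Δ) → ∀ v v' : V,
  (Finset.univ.filter fun u : Fin s → V => (∀ i, u i ∈ Ls A C v ∩ Ls A C v') ∧
    ¬ Gd A p q C v v' u).card ≤ E * Δ * (Ls A C v ∩ Ls A C v').card ^ (s - 1)

/-- CL (from RA, HE, NL). A clique of centres. `R = max(R(s + t, t), 2)` for the relation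
`C0 s t ≤ cd A x y` on the image of `f` (`f` is injective, as `Co` is reflexive). The first alternative
of RA gives `Emb` by HE. In the second alternative we have centres `v j = f (a j)`, `j : Fin t`, pairwise
with less than `C0 s t` common neighbours. Choose any common neighbour `m i j` of `v j` and `u i`.
Collisions: `u i`, `u i'`: `Bp` (first part; `t ≥ 2`). `v j`, `v j'`: assumption. `u i`, `v j`: NL (6).
`u i`, `m i j`: `ne1`, `ne2`; `u i`, `m i' j`, `i ≠ i'`: `Bp` (second or third part). `v j`, `m i j`: `ne1`,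
`ne2`; `v j`, `m i j'`, `j ≠ j'`: `Bs` (second or third part). `m i j`, `m i' j`, `i ≠ i'`: by NL (7) they
would be equal, `Bp` (fourth or fifth part). `m i j`, `m i j'`, `j ≠ j'`: by NL (7) they would be equal,
`Bs` (first part). `m i j`, `m i' j'` with `i ≠ i'`, `j ≠ j'`: `Bp` (last part). -/
def CL_stmt : Prop := ∀ s t : ℕ, 1 ≤ s → 2 ≤ t → ∃ R : ℕ, 2 ≤ R ∧ ∀ (V X : Type) [Fintype V]
  (A : V → V → Prop) (p q : V → X), PG A p q →
  (∃ (u : Fin s → V) (f : Fin R → V), (∀ a i, Lg A (C0 s t) (f a) (u i)) ∧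
    ∀ a b, a ≠ b → ¬ Co p q (f a) (f b) ∧ Gd A p q (C0 s t) (f a) (f b) u) → Emb A p q s t

/-- BE (from GR, NL). Collinear centres, embedding. `C1 = s^2 C0 + 2 s^2 + s t + t (1 + 3 s + 2 s^2) + 1`.
Let `z j = p (v j)`, different for different `j` (`inj1`), and
`Y j = {w : p w = z j ∧ ∀ i, Lg A C0 w (u i)}`. Choose for every `w` in one of the `Y j` and every `i` a
common neighbour `mid w i` of `w` and `u i`. Remove from `Y j` the `w` with (a) `A (u i') (mid w i)` for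
some `i ≠ i'`: at most `s^2 C0` (fewer than `C0` common neighbours of `u i`, `u i'`, each has at most one
neighbour `w` with `p w = z j`); (b) `Co (mid w i) (u i')` for some `i ≠ i'`: at most `2 s^2` (NL (1));
(c) `p (mid w i) = z j'` for some `i`, `j'`: at most `s t`. GR for the remaining sets, the relation
`q w = q w' ∨ (∃ i, Co (mid w i) w') ∨ (∃ i, Co (mid w' i) w) ∨ ∃ i i', Co (mid w i) (mid w' i')` and
`E = 1 + 3 s + 2 s^2`: for given `w' ∈ Y j'`, `j' ≠ j`, there is at most one `w ∈ Y j` with `q w = q w'`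
(`ext`), `Co (mid w i) w'` holds for at most two (NL (1): two possible `mid w i`), `Co (mid w' i) w` for
at most one (`p (mid w' i) ≠ z j` by (c)), `Co (mid w i) (mid w' i')` for at most two.
Then `u i`, `w j`, `m i j = mid (w j) i` have no collisions: `u i`, `u i'`: NL (7) (neighbours of `m`);
`w j`, `w j'`: `z j ≠ z j'` and GR; `u i`, `w j`: NL (6); `u i`, `mid (w j) i'`: adjacent if `i = i'`,
otherwise (b); `w j`, `mid (w j') i`: adjacent if `j = j'`, otherwise GR; `mid (w j) i`, `mid (w j) i'`: they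
are neighbours of `w j`, so equal by NL (7), which contradicts (a); `mid (w j) i`, `mid (w j') i'`: GR. -/
def BE_stmt : Prop := ∀ s t : ℕ, 1 ≤ s → ∃ C1 : ℕ, ∀ (V X : Type) [Fintype V] (A : V → V → Prop)
  (p q : V → X), PG A p q → Cfg A p (C0 s t) C1 s t → Emb A p q s t

/-- BA (from RT, HE, NL). Collinear centres, counting. For `v`, `v' ≠ v`, `p v' = p v` and `m ∈ N(v)` let
`Q = {u ∈ N(m) : Lg v' u}`, `x = #Q`. (1) `#(L(v) ∩ L(v')) ≤ Σ_{m ∈ N(v)} x` (a common neighbour of `v`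
and `u`), so `#(L(v) ∩ L(v'))^s ≤ Δ^(s-1) Σ_{m ∈ N(v)} x^s`. (2) RT for `Q`, `g = (C0 ≤ cd)`, `a = s + t`
(HE, NL (7): no such family as `¬ Emb`): `x^s ≤ R^s a(Q) + R^2 x^(s-1)`, where `a(Q)` is the number of
tuples `u` in `Q`, injective and with `cd A (u i) (u i') < C0`; as
`2 R^2 x^(s-1) ≤ x^s + (2 R^2)^(s-1) x` one has `x^s ≤ 2 R^s a(Q) + (2 R^2)^(s-1) x`.
(3) The sum of all `x` is at most `N Δ^3` (`v`, `m ∈ N(v)`, `u ∈ N(m)`, then at most `Δ` vertices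
`v' ∈ L(u)` with `p v' = p v`, NL (2)). (4) The sum of all `a(Q)` is the sum over `m` and the tuples `u` in
`N(m)` (injective, `cd < C0`; at most `N Δ^s` pairs `(m, u)`) of
`Σ_{v ∈ N(m)} #{v' ≠ v : p v' = p v ∧ ∀ i, Lg v' (u i)}`; every term is at most `Δ` (NL (2), `s ≥ 1`), and by
`¬ Cfg` fewer than `t` of them are `≥ C1`, so this is at most `(C1 + t) Δ`. Together
`S1 ≤ Δ^(s-1) (2 R^s N Δ^(s+1) (C1 + t) + (2 R^2)^(s-1) N Δ^3) ≤ B N Δ^(2s)`. -/
def BA_stmt : Prop := ∀ s t C1 : ℕ, 2 ≤ s → 1 ≤ t → ∃ B : ℕ, ∀ (V X : Type) [Fintype V]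
  (A : V → V → Prop) (p q : V → X) (Δ : ℕ), PG A p q → (∀ v, deg A v ≤ Δ) → 1 ≤ Δ →
  ¬ Emb A p q s t → ¬ Cfg A p (C0 s t) C1 s t →
  S1 A p (C0 s t) s ≤ B * (Fintype.card V * Δ ^ (2 * s))

/-- CORE (from CL, CB, BE, BA, SB, NL, `TU_stmt`). `R` from CL, `E` from CB, `C1` from BE, `B1` from BA. For
`u : Fin s → V` let `V(u) = {v : ∀ i, Lg v (u i)}`. `TU` for the subtype of `V(u)`, `R` points and the
relation `g v v' = ¬ Co v v' ∧ Gd v v' u` (symmetric), by CL there is no clique: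
`(#V(u))^2 ≤ R #{(v, v') ∈ V(u)^2 : v = v' ∨ Co v v' ∨ ¬ Gd v v' u}`. Sum over `u` (the left sides add up
to `XX`, see MO): `XX ≤ R (Σ_v (#L(v))^s + S1 p + S1 q + Σ_v Σ_v' E Δ #(L(v) ∩ L(v'))^(s-1))`, here
`Σ_v (#L(v))^s ≤ N Δ^(2s)` (NL (5)), `S1 ≤ B1 N Δ^(2s)` by BA for `(p, q)` and for `(q, p)` (`PG` and `Emb`
are symmetric in `p`, `q`; `¬ Cfg` by BE), and by SB with `l = 2 R E + 1` the last sum times `R` is at most
`(XX + l^(s-1) N Δ^(2s)) / 2`. So `B = 2 R (1 + 2 B1) + l^(s-1)`. -/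
def CORE_stmt : Prop := ∀ s t : ℕ, 3 ≤ s → 2 ≤ t → ∃ B : ℕ, ∀ (V X : Type) [Fintype V]
  (A : V → V → Prop) (p q : V → X) (Δ : ℕ), PG A p q → (∀ v, deg A v ≤ Δ) → 1 ≤ Δ →
  ¬ Emb A p q s t → XX A (C0 s t) s ≤ B * (Fintype.card V * Δ ^ (2 * s))

/-- FB (from LT, MO, CORE). `D` = sum of the degrees, `S` = sum of the `#L(v)`, `Δ` = maximal degree (if
`D = 0` nothing to prove), so `1 ≤ Δ ≤ K D / N`. LT: `D^2 ≤ N (s + t) (D + C0 S)`. If `C0 S ≤ D` then
`D ≤ 2 (s + t) N`. Otherwise `D^2 ≤ 2 N (s + t) C0 S`, and MO, CORE: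
`S^(2s) ≤ N^(3s-2) B N Δ^(2s) ≤ B K^(2s) N^(s-1) D^(2s)`; so
`D^(4s) ≤ (2 N (s + t) C0)^(2s) B K^(2s) N^(s-1) D^(2s)`, `D^(2s) ≤ const N^(3s-1)`. -/
def FB_stmt : Prop := ∀ (s t : ℕ) (K : ℝ), 3 ≤ s → 2 ≤ t → 0 < K → ∃ κ : ℝ, 0 < κ ∧
  ∀ (V X : Type) [Fintype V] (A : V → V → Prop) (p q : V → X), PG A p q → 0 < Fintype.card V →
  (∀ v, (deg A v : ℝ) * Fintype.card V ≤ K * ∑ w, (deg A w : ℝ)) → ¬ Emb A p q s t →
  ∑ v, (deg A v : ℝ) ≤ κ * (Fintype.card V : ℝ) ^ (1 + ((s : ℝ) - 1) / (2 * s))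

/-! ## Colourings -/

/-- RG2. Regularisation, copy of `RGL` (Pool/Agent/helper51/TH/RGL.lean) with a real exponent:
replace `72 ^ l` by `72 ^ L` with `L = ⌈1/a⌉₊`; then `(3 / 72^L)^a ≤ 3^a / 72 ≤ 3 / 72`. The lemmas
`RGL_top`, `RGL_dc`, `RGL_mono`, `RGL_split` can be imported. -/
def RG2_stmt : Prop := ∀ a : ℝ, 0 < a → a ≤ 1 → ∃ K : ℝ, 0 < K ∧ ∀ C₂ : ℝ, 0 < C₂ →
  ∃ C₁ : ℝ, 0 < C₁ ∧ ∀ (V : Type) [Fintype V] (A : V → V → Prop), (∀ u v, A u v → A v u) →
    0 < Fintype.card V →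
    C₁ * (Fintype.card V : ℝ) ^ (1 + a) ≤ ∑ v, (dg A Finset.univ v : ℝ) →
    ∃ U : Finset V, U.Nonempty ∧ C₂ * (U.card : ℝ) ^ (1 + a) ≤ ∑ v ∈ U, (dg A U v : ℝ) ∧
      ∀ v ∈ U, (dg A U v : ℝ) * U.card ≤ K * ∑ w ∈ U, (dg A U w : ℝ)

/-- PT. A random partition: every pair `u`, `w` with `Ga χ u w` has four different entries, so
`Gb χ ω u w` holds for exactly `2^(n-4)` of the `2^n` functions `ω` (at least one sixteenth). -/
def PT_stmt : Prop := ∀ (V K : Type) [Fintype V] (χ : V → V → K), ∃ ω : V → Bool,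
  ∑ v, dg (Ga χ) Finset.univ v ≤ 16 * ∑ v, dg (Gb χ ω) Finset.univ v

/-- TRK. The pair graph of a proper colouring, restricted to a set `U` of pairs, is an abstract pair
graph, and `Emb` gives two disjoint colour isomorphic copies: `φ`, `ψ` are the first and the second
entries of the vertices `u i` (root `i`), `v j` (centre of the copy `j`) and `m i j` (middle of the leg `i`
of the copy `j`); first entries are in the part `true`, second entries in the part `false` of `ω`. -/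
def TRK_stmt : Prop := ∀ (V K : Type) [Fintype V] (χ : V → V → K) (ω : V → Bool)
  (U : Finset (V × V)), PC χ →
  PG (fun u w : {x // x ∈ U} => Gb χ ω u.1 w.1) (fun u => u.1.1) (fun u => u.1.2) ∧
  ∀ s t : ℕ, 1 ≤ s → 1 ≤ t →
    Emb (fun u w : {x // x ∈ U} => Gb χ ω u.1 w.1) (fun u => u.1.1) (fun u => u.1.2) s t →
    Two ((spider s).pw t) χ

/-- SP. The spider is balanced: if `S` consists of `j` middles and not the centre it meets `2 j` edges and
`2 s j ≤ (s + 1) 2 j`; if it also contains the centre it meets `s + j` edges and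
`2 s (j + 1) ≤ (s + 1) (s + j)`, as `(s - 1) (s - j) ≥ 0`. Its powers are bipartite: roots and centres
against middles. -/
def SP_stmt : Prop := ∀ s : ℕ, 1 ≤ s → (spider s).Balanced ∧ ∀ p : ℕ, ((spider s).pw p).Colorable 2

/-- LBK (from RG2 with `a = (s-1)/(2s)`, `EC_stmt`, PT, TRK, FB). If `4 m > n (n - 1)` the bound is trivial.
Otherwise `EC` and PT: the sum of the degrees of `Gb χ ω` is at least `n^4 / (128 m)`. Let `K` be the
constant of RG2, `κ` that of FB for `K`, `C₂ = κ + 1`, `C₁` from RG2. If `m < c n^(1+1/s)` with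
`c = 1 / (128 C₁)` then `n^4 / (128 m) ≥ C₁ (n^2)^(1+a)`, as `4 - (1 + 1/s) = 2 (1 + a)`; RG2 gives `U`,
FB for the subtype of `U` gives `Emb` (as `C₂ > κ`) and TRK the two copies. -/
def LBK_stmt : Prop := ∀ s t : ℕ, 3 ≤ s → 2 ≤ t → ∃ c : ℝ, 0 < c ∧ ∃ N : ℕ, ∀ n : ℕ, N ≤ n →
  ∀ m : ℕ, ∀ χ : Fin n → Fin n → Fin m, PC χ → ¬ Two ((spider s).pw t) χ →
    c * (n : ℝ) ^ (1 + 1 / (s : ℝ)) ≤ (m : ℝ)

/-- FIN (from LBK, SP, `UB_stmt`, `MONO_stmt`, `ISO_stmt`, see `MAIN_theta` in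
Pool/Agent/helper23/TH/Main.lean). -/
def FIN_stmt : Prop := ∀ s : ℕ, 3 ≤ s →
  (∀ p : ℕ, ((spider s).pw p).Colorable 2) ∧
  (∃ p₀ : ℕ, ∀ p : ℕ, p₀ ≤ p → Law ((spider s).pw p) (1 + 1 / (s : ℝ))) ∧
  ∃ k : ℕ, ∃ H : SimpleGraph (Fin k), H.Colorable 2 ∧ Law H (1 + 1 / (s : ℝ))

end

end Pool.Agent.KS
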