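import Pool.Agent.helper90.KS.Spec

/-! # Module ks:BA -/

set_option autoImplicit false

open scoped BigOperators

namespace Pool.Agent.KS

open Pool.Agent.helper23.TH

noncomputable section

open Classical

theorem BA_arith (s R x a : ℕ) (hs : 2 ≤ s) (h : x ^ s ≤ a + R ^ 2 * x ^ (s - 1)) :
    x ^ s ≤ 2 * a + (2 * R ^ 2) ^ (s - 1) * x := by
  obtain ⟨k, rfl⟩ : ∃ k, s = k + 1 := ⟨s - 1, by omega⟩
  simp only [Nat.add_sub_cancel] at h ⊢
  rcases le_or_gt (2 * R ^ 2) x with hx | hx
  · have h1 : 2 * (R ^ 2 * x ^ k) ≤ x ^ (k + 1) := by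
      calc 2 * (R ^ 2 * x ^ k) = (2 * R ^ 2) * x ^ k := by ring
        _ ≤ x * x ^ k := Nat.mul_le_mul_right _ hx
        _ = x ^ (k + 1) := by ring
    have h2 : 0 ≤ (2 * R ^ 2) ^ k * x := Nat.zero_le _
    omega
  · have h1 : x ^ (k + 1) ≤ (2 * R ^ 2) ^ k * x := by
      rw [pow_succ]
      exact Nat.mul_le_mul_right _ (Nat.pow_le_pow_left hx.le k)
    omega

theorem BA_cd_symm {V : Type} [Fintype V] (A : V → V → Prop) (v w : V) : cd A v w = cd A w v := by
  unfold cd
  congr 1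
  ext m
  simp only [Finset.mem_filter, Finset.mem_univ, true_and]
  exact and_comm

/-- the set of common light elements -/
def BA_Q {V : Type} [Fintype V] (A : V → V → Prop) (C : ℕ) (m v' : V) : Finset V :=
  Finset.univ.filter fun u => A m u ∧ Lg A C v' u

/-- the tuples in the neighbourhood of `m` -/
def BA_T {V : Type} [Fintype V] (A : V → V → Prop) (C s : ℕ) (m : V) : Finset (Fin s → V) :=
  Finset.univ.filter fun u : Fin s → V => (∀ i, A m (u i)) ∧
    ∀ i j, i ≠ j → u i ≠ u j ∧ ¬ C ≤ cd A (u i) (u j)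

theorem BA_cover {V X : Type} [Fintype V] (A : V → V → Prop) (p q : V → X) (C : ℕ)
    (hG : PG A p q) (v v' : V) :
    (Ls A C v ∩ Ls A C v').card ≤ ∑ m ∈ Finset.univ.filter (fun m => A v m), (BA_Q A C m v').card := by
  refine le_trans (Finset.card_le_card ?_) Finset.card_biUnion_le
  intro u hu
  rw [Finset.mem_inter] at hu
  have h1 : Lg A C v u := (Finset.mem_filter.mp hu.1).2
  have h2 : Lg A C v' u := (Finset.mem_filter.mp hu.2).2
  have h3 : 0 < cd A v u := h1.2.1
  obtain ⟨m, hm⟩ := Finset.card_pos.mp h3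
  rw [Finset.mem_filter] at hm
  rw [Finset.mem_biUnion]
  refine ⟨m, Finset.mem_filter.mpr ⟨Finset.mem_univ _, hm.2.1⟩, ?_⟩
  exact Finset.mem_filter.mpr ⟨Finset.mem_univ _, hG.symm _ _ hm.2.2, h2⟩

theorem BA (hRT : RT_stmt) (hHE : HE_stmt) (hNL : NL_stmt) : BA_stmt := by
  intro s t C1 hs ht
  obtain ⟨R, hR1, hR⟩ := hRT s (s + t) (by omega)
  refine ⟨2 * R ^ s * (C1 + t) + (2 * R ^ 2) ^ (s - 1), ?_⟩
  intro V X _ A p q Δ hG hdeg hΔ hE hC
  set C := C0 s t with hCdef
  obtain ⟨-, hN2, -, -, -, hN6, hN7⟩ := hNL V X A p q Δ C hG hdeg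
  set F : V → Finset V := fun v => Finset.univ.filter fun v' => v' ≠ v ∧ p v' = p v with hF
  set N : V → Finset V := fun v => Finset.univ.filter fun m => A v m with hN
  have hNcard : ∀ v, (N v).card ≤ Δ := hdeg
  -- (2)
  have hx : ∀ m v', (BA_Q A C m v').card ^ s ≤ 2 * (R ^ s * (Finset.univ.filter
      fun u : Fin s → V => u ∈ BA_T A C s m ∧ ∀ i, Lg A C v' (u i)).card) +
      (2 * R ^ 2) ^ (s - 1) * (BA_Q A C m v').card := by
    intro m v'
    apply BA_arith s R _ _ hs
    have h1 := hR V (BA_Q A C m v') (fun x y => C ≤ cd A x y)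
      (fun x y h => by rw [BA_cd_symm]; exact h) ?_
    · refine h1.trans (Nat.add_le_add_right (Nat.mul_le_mul_left _ (le_of_eq ?_)) _)
      congr 1
      ext u
      simp only [Finset.mem_filter, Finset.mem_univ, true_and, BA_Q, BA_T]
      constructor
      · rintro ⟨h2, h3⟩
        exact ⟨⟨fun i => (h2 i).1, h3⟩, fun i => (h2 i).2⟩
      · rintro ⟨⟨h2, h3⟩, h4⟩
        exact ⟨fun i => ⟨h2 i, h4 i⟩, h3⟩
    · rintro ⟨f, hf1, hf2, hf3⟩
      refine hE (hHE s t V X A p q hG ⟨f, fun a b hab => ⟨?_, hf3 a b hab⟩⟩)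
      exact hN7 m (f a) (f b) (Finset.mem_filter.mp (hf2 a)).2.1 (Finset.mem_filter.mp (hf2 b)).2.1
        (hf1.ne hab)
  -- (3)
  have hSX : ∑ v, ∑ v' ∈ F v, ∑ m ∈ N v, (BA_Q A C m v').card ≤ Fintype.card V * Δ ^ 3 := by
    have h1 : ∀ v ∈ (Finset.univ : Finset V), ∑ v' ∈ F v, ∑ m ∈ N v, (BA_Q A C m v').card ≤
        Δ ^ 3 := by
      intro v _
      have h2 : ∑ v' ∈ F v, ∑ m ∈ N v, (BA_Q A C m v').card =
          ∑ m ∈ N v, ∑ u ∈ N m, ((F v).filter fun v' => Lg A C v' u).card := by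
        rw [Finset.sum_comm]
        refine Finset.sum_congr rfl fun m _ => ?_
        have h3 : ∀ v' ∈ F v, (BA_Q A C m v').card = ∑ u ∈ N m, if Lg A C v' u then 1 else 0 := by
          intro v' _
          rw [← Finset.card_filter]
          congr 1
          ext u
          simp only [BA_Q, hN, Finset.mem_filter, Finset.mem_univ, true_and]
        rw [Finset.sum_congr rfl h3, Finset.sum_comm]
        refine Finset.sum_congr rfl fun u _ => ?_
        rw [Finset.card_filter]
      rw [h2]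
      have h4 : ∀ m ∈ N v, ∑ u ∈ N m, ((F v).filter fun v' => Lg A C v' u).card ≤ Δ * Δ := by
        intro m _
        have h5 : ∀ u ∈ N m, ((F v).filter fun v' => Lg A C v' u).card ≤ Δ := by
          intro u _
          refine le_trans (Finset.card_le_card ?_) (hN2 u (p v))
          intro v' hv'
          rw [Finset.mem_filter] at hv'
          rw [Finset.mem_filter]
          exact ⟨Finset.mem_univ _, (hN6 _ _ hv'.2).1, (Finset.mem_filter.mp hv'.1).2.2⟩
        refine (Finset.sum_le_card_nsmul _ _ _ h5).trans ?_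
        rw [smul_eq_mul]
        exact Nat.mul_le_mul_right _ (hNcard m)
      refine (Finset.sum_le_card_nsmul _ _ _ h4).trans ?_
      rw [smul_eq_mul]
      calc (N v).card * (Δ * Δ) ≤ Δ * (Δ * Δ) := Nat.mul_le_mul_right _ (hNcard v)
        _ = Δ ^ 3 := by ring
    refine (Finset.sum_le_card_nsmul _ _ _ h1).trans ?_
    rw [smul_eq_mul, Finset.card_univ]
  -- (4)
  have hT : ∀ m, (BA_T A C s m).card ≤ Δ ^ s := by
    intro m
    have h1 : BA_T A C s m ⊆ Fintype.piFinset fun _ : Fin s => N m := by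
      intro u hu
      rw [Fintype.mem_piFinset]
      intro i
      exact Finset.mem_filter.mpr ⟨Finset.mem_univ _, (Finset.mem_filter.mp hu).2.1 i⟩
    refine (Finset.card_le_card h1).trans ?_
    rw [Fintype.card_piFinset, Finset.prod_const, Finset.card_univ, Fintype.card_fin]
    exact Nat.pow_le_pow_left (hNcard m) s
  have hW : ∀ m, ∀ u ∈ BA_T A C s m,
      ∑ v ∈ N m, ((F v).filter fun v' => ∀ i, Lg A C v' (u i)).card ≤ (C1 + t) * Δ := by
    intro m u hu
    rw [BA_T, Finset.mem_filter] at hu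
    set y : V → ℕ := fun v => ((F v).filter fun v' => ∀ i, Lg A C v' (u i)).card with hy
    have hyΔ : ∀ v, y v ≤ Δ := by
      intro v
      refine le_trans (Finset.card_le_card ?_) (hN2 (u ⟨0, by omega⟩) (p v))
      intro v' hv'
      rw [Finset.mem_filter] at hv'
      rw [Finset.mem_filter]
      exact ⟨Finset.mem_univ _, (hN6 _ _ (hv'.2 ⟨0, by omega⟩)).1,
        (Finset.mem_filter.mp hv'.1).2.2⟩
    set H : Finset V := (N m).filter fun v => C1 ≤ y v with hH
    have hHt : H.card < t := by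
      by_contra hcon
      rw [not_lt] at hcon
      have hemb : Nonempty (Fin t ↪ {x // x ∈ H}) := by
        apply Function.Embedding.nonempty_of_card_le
        rw [Fintype.card_fin, Fintype.card_coe]
        exact hcon
      obtain ⟨e⟩ := hemb
      apply hC
      refine ⟨m, u, fun j => (e j).1, hu.2.1, ?_, ?_, ?_, ?_⟩
      · intro i i' hii
        obtain ⟨h1, h2⟩ := hu.2.2 i i' hii
        exact ⟨h1, not_le.mp h2⟩
      · intro j
        exact (Finset.mem_filter.mp (Finset.mem_filter.mp (e j).2).1).2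
      · intro a b hab
        exact e.injective (Subtype.ext hab)
      · intro j
        refine (Finset.mem_filter.mp (e j).2).2.trans (Finset.card_le_card ?_)
        intro v' hv'
        rw [Finset.mem_filter] at hv'
        exact Finset.mem_filter.mpr ⟨Finset.mem_univ _, (Finset.mem_filter.mp hv'.1).2.2, hv'.2⟩
    have h1 : ∑ v ∈ N m, y v ≤ ∑ v ∈ N m, ((if v ∈ H then Δ else 0) + C1) := by
      refine Finset.sum_le_sum fun v hv => ?_
      by_cases hvH : v ∈ H
      · rw [if_pos hvH]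
        exact (hyΔ v).trans (Nat.le_add_right _ _)
      · rw [if_neg hvH, zero_add]
        have : ¬ C1 ≤ y v := fun h => hvH (Finset.mem_filter.mpr ⟨hv, h⟩)
        omega
    refine h1.trans ?_
    rw [Finset.sum_add_distrib, Finset.sum_const, smul_eq_mul, ← Finset.sum_filter,
      Finset.sum_const, smul_eq_mul]
    have h2 : ((N m).filter fun v => v ∈ H).card ≤ t := by
      refine (Finset.card_le_card ?_).trans hHt.le
      intro v hv
      exact (Finset.mem_filter.mp hv).2
    calc ((N m).filter fun v => v ∈ H).card * Δ + (N m).card * C1 ≤ t * Δ + Δ * C1 :=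
          Nat.add_le_add (Nat.mul_le_mul_right _ h2) (Nat.mul_le_mul_right _ (hNcard m))
      _ = (C1 + t) * Δ := by ring
  have hSA : ∑ v, ∑ v' ∈ F v, ∑ m ∈ N v, (Finset.univ.filter
      fun u : Fin s → V => u ∈ BA_T A C s m ∧ ∀ i, Lg A C v' (u i)).card ≤
      Fintype.card V * (Δ ^ s * ((C1 + t) * Δ)) := by
    have h1 : ∑ v, ∑ v' ∈ F v, ∑ m ∈ N v, (Finset.univ.filter
        fun u : Fin s → V => u ∈ BA_T A C s m ∧ ∀ i, Lg A C v' (u i)).card =
        ∑ m, ∑ u ∈ BA_T A C s m, ∑ v ∈ N m,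
          ((F v).filter fun v' => ∀ i, Lg A C v' (u i)).card := by
      have h2 : ∀ v ∈ (Finset.univ : Finset V), ∑ v' ∈ F v, ∑ m ∈ N v, (Finset.univ.filter
          fun u : Fin s → V => u ∈ BA_T A C s m ∧ ∀ i, Lg A C v' (u i)).card =
          ∑ m, if A v m then ∑ u ∈ BA_T A C s m,
            ((F v).filter fun v' => ∀ i, Lg A C v' (u i)).card else 0 := by
        intro v _
        rw [Finset.sum_comm, ← Finset.sum_filter]
        refine Finset.sum_congr rfl fun m _ => ?_
        have h3 : ∀ v' ∈ F v, (Finset.univ.filter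
            fun u : Fin s → V => u ∈ BA_T A C s m ∧ ∀ i, Lg A C v' (u i)).card =
            ∑ u ∈ BA_T A C s m, if ∀ i, Lg A C v' (u i) then 1 else 0 := by
          intro v' _
          rw [← Finset.card_filter]
          congr 1
          ext u
          simp only [Finset.mem_filter, Finset.mem_univ, true_and]
        rw [Finset.sum_congr rfl h3, Finset.sum_comm]
        refine Finset.sum_congr rfl fun u _ => ?_
        rw [Finset.card_filter]
      rw [Finset.sum_congr rfl h2, Finset.sum_comm]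
      refine Finset.sum_congr rfl fun m _ => ?_
      rw [← Finset.sum_filter, Finset.sum_comm]
      refine Finset.sum_congr rfl fun u _ => ?_
      have h4 : (Finset.univ.filter fun v => A v m) = N m := by
        ext v
        simp only [hN, Finset.mem_filter, Finset.mem_univ, true_and]
        exact ⟨hG.symm _ _, hG.symm _ _⟩
      rw [h4]
    rw [h1]
    have h5 : ∀ m ∈ (Finset.univ : Finset V), ∑ u ∈ BA_T A C s m, ∑ v ∈ N m,
        ((F v).filter fun v' => ∀ i, Lg A C v' (u i)).card ≤ Δ ^ s * ((C1 + t) * Δ) := by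
      intro m _
      refine (Finset.sum_le_card_nsmul _ _ _ (hW m)).trans ?_
      rw [smul_eq_mul]
      exact Nat.mul_le_mul_right _ (hT m)
    refine (Finset.sum_le_card_nsmul _ _ _ h5).trans ?_
    rw [smul_eq_mul, Finset.card_univ]
  -- together
  obtain ⟨k, rfl⟩ : ∃ k, s = k + 1 := ⟨s - 1, by omega⟩
  have hterm : ∀ v v', (Ls A C v ∩ Ls A C v').card ^ (k + 1) ≤ Δ ^ k * ∑ m ∈ N v,
      (2 * (R ^ (k + 1) * (Finset.univ.filter
      fun u : Fin (k + 1) → V => u ∈ BA_T A C (k + 1) m ∧ ∀ i, Lg A C v' (u i)).card) +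
      (2 * R ^ 2) ^ k * (BA_Q A C m v').card) := by
    intro v v'
    calc (Ls A C v ∩ Ls A C v').card ^ (k + 1)
        ≤ (∑ m ∈ N v, (BA_Q A C m v').card) ^ (k + 1) :=
          Nat.pow_le_pow_left (BA_cover A p q C hG v v') _
      _ ≤ (N v).card ^ k * ∑ m ∈ N v, (BA_Q A C m v').card ^ (k + 1) :=
          pow_sum_le_card_mul_sum_pow (fun _ _ => Nat.zero_le _) k
      _ ≤ Δ ^ k * ∑ m ∈ N v, (BA_Q A C m v').card ^ (k + 1) :=
          Nat.mul_le_mul_right _ (Nat.pow_le_pow_left (hNcard v) k)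
      _ ≤ _ := Nat.mul_le_mul_left _ (Finset.sum_le_sum fun m _ => hx m v')
  have hS : S1 A p C (k + 1) ≤ Δ ^ k * (2 * (R ^ (k + 1) *
      ∑ v, ∑ v' ∈ F v, ∑ m ∈ N v, (Finset.univ.filter
      fun u : Fin (k + 1) → V => u ∈ BA_T A C (k + 1) m ∧ ∀ i, Lg A C v' (u i)).card) +
      (2 * R ^ 2) ^ k * ∑ v, ∑ v' ∈ F v, ∑ m ∈ N v, (BA_Q A C m v').card) := by
    have h0 : S1 A p C (k + 1) = ∑ v, ∑ v' ∈ F v, (Ls A C v ∩ Ls A C v').card ^ (k + 1) := rfl
    rw [h0]
    refine (Finset.sum_le_sum fun v _ => Finset.sum_le_sum fun v' _ => hterm v v').trans ?_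
    refine le_of_eq ?_
    simp only [Finset.mul_sum, Finset.sum_add_distrib, mul_add]
  refine hS.trans ?_
  calc _ ≤ Δ ^ k * (2 * (R ^ (k + 1) * (Fintype.card V * (Δ ^ (k + 1) * ((C1 + t) * Δ)))) +
      (2 * R ^ 2) ^ k * (Fintype.card V * Δ ^ 3)) :=
        Nat.mul_le_mul_left _ (Nat.add_le_add
          (Nat.mul_le_mul_left _ (Nat.mul_le_mul_left _ hSA)) (Nat.mul_le_mul_left _ hSX))
    _ = 2 * R ^ (k + 1) * (C1 + t) * (Fintype.card V * Δ ^ (2 * (k + 1))) +
        (2 * R ^ 2) ^ k * (Fintype.card V * Δ ^ (k + 3)) := by ring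
    _ ≤ 2 * R ^ (k + 1) * (C1 + t) * (Fintype.card V * Δ ^ (2 * (k + 1))) +
        (2 * R ^ 2) ^ k * (Fintype.card V * Δ ^ (2 * (k + 1))) := by
        refine Nat.add_le_add_left (Nat.mul_le_mul_left _ (Nat.mul_le_mul_left _ ?_)) _
        exact Nat.pow_le_pow_right hΔ (by omega)
    _ = (2 * R ^ (k + 1) * (C1 + t) + (2 * R ^ 2) ^ (k + 1 - 1)) *
        (Fintype.card V * Δ ^ (2 * (k + 1))) := by
        rw [Nat.add_sub_cancel]
        ring

end

end Pool.Agent.KS
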