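import Pool.Agent.helper23.TH.All
import Pool.Agent.helper90.KS.Spec
import Pool.Agent.helper90.KS.BA
import Pool.Agent.helper52.KS.BE
import Pool.Agent.helper60.KS.CB
import Pool.Agent.helper99.KS.CL
import Pool.Agent.helper98.KS.CORE
import Pool.Agent.helper72.KS.FB
import Pool.Agent.helper91.KS.FIN
import Pool.Agent.helper21.KS.GR
import Pool.Agent.helper92.KS.HE
import Pool.Agent.helper20.KS.LBK
import Pool.Agent.helper77.KS.LT
import Pool.Agent.helper46.KS.MO
import Pool.Agent.helper78.KS.NL
import Pool.Agent.helper97.KS.PT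
import Pool.Agent.helper6.KS.RA
import Pool.Agent.helper11.KS.RG2
import Pool.Agent.helper73.KS.RT
import Pool.Agent.helper79.KS.SB
import Pool.Agent.helper12.KS.SP
import Pool.Agent.helper72.KS.TRK

/-!
MP_26dbae_co: `f_2(n, H) = Θ(n^(1+1/s))` for the 1-subdivision `H` of `K_{s,t}`: all modules together.
-/

set_option autoImplicit false

namespace Pool.Agent.KS

open Pool.Agent.helper23.TH

theorem all_HE : HE_stmt := HE GR NL

theorem all_LT : LT_stmt := LT all_HE NL TU

theorem all_BA : BA_stmt := BA (RT RA) all_HE NL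

theorem all_CORE : CORE_stmt := CORE (CL RA all_HE NL) (CB NL) (BE GR NL) all_BA SB NL TU

theorem all_FB : FB_stmt := FB all_LT MO all_CORE

theorem all_LBK : LBK_stmt := LBK RG2 EC PT TRK all_FB

theorem all_FIN : FIN_stmt := FIN all_LBK SP all_UB MONO ISO

end Pool.Agent.KS
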