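import Pool.Agent.helper23.TH.Spec

/-!
# MP_26dbae_co: `f_2(n, H)` for the 1-subdivisions `H` of `K_{s,t}`: definitions

The pair graph of a proper colouring `χ` has the pairs `(x, y)` of vertices as its vertices,
`(x, y)` and `(x', y')` are joined if `χ x x' = χ y y'`. We only use pairs with `x` in one part and
`y` in the other part of a partition of the vertex set. In the abstract part `A` is the adjacency
relation and `p u`, `q u` are the two entries of the pair `u`.
-/

set_option autoImplicit false

open scoped BigOperators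

namespace Pool.Agent.KS

open Pool.Agent.helper23.TH

noncomputable section

open Classical

/-! ### Abstract pair graphs -/

/-- abstract pair graph: adjacent vertices have different entries, and every vertex has at most one
neighbour with a given first (second) entry -/
structure PG {V X : Type} (A : V → V → Prop) (p q : V → X) : Prop where
  symm : ∀ u w, A u w → A w u
  ne1 : ∀ u w, A u w → p u ≠ p w
  ne2 : ∀ u w, A u w → q u ≠ q w
  inj1 : ∀ w u u', A w u → A w u' → p u = p u' → u = u'
  inj2 : ∀ w u u', A w u → A w u' → q u = q u' → u = u'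
  ext : ∀ u u', p u = p u' → q u = q u' → u = u'

/-- the two vertices collide: they have the same first or the same second entry -/
def Co {V X : Type} (p q : V → X) (u w : V) : Prop := p u = p w ∨ q u = q w

/-- number of neighbours -/
def deg {V : Type} [Fintype V] (A : V → V → Prop) (v : V) : ℕ :=
  (Finset.univ.filter fun w => A v w).card

/-- number of common neighbours -/
def cd {V : Type} [Fintype V] (A : V → V → Prop) (v w : V) : ℕ :=
  (Finset.univ.filter fun m => A v m ∧ A w m).card

/-- `v` and `u` are a light pair: different, with at least one and less than `C` common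
neighbours -/
def Lg {V : Type} [Fintype V] (A : V → V → Prop) (C : ℕ) (v u : V) : Prop :=
  v ≠ u ∧ 1 ≤ cd A v u ∧ cd A v u < C

/-- the set of the `u` such that `v`, `u` is a light pair -/
def Ls {V : Type} [Fintype V] (A : V → V → Prop) (C : ℕ) (v : V) : Finset V :=
  Finset.univ.filter fun u => Lg A C v u

/-- `A` contains the 1-subdivision of `K_{s,t}` without collisions: `u i`, `v j` are the branch
vertices and `m i j` is the vertex which subdivides the edge between `u i` and `v j` -/
def Emb {V X : Type} (A : V → V → Prop) (p q : V → X) (s t : ℕ) : Prop :=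
  ∃ (u : Fin s → V) (v : Fin t → V) (m : Fin s → Fin t → V),
    (∀ i j, A (u i) (m i j) ∧ A (m i j) (v j)) ∧
    (∀ i i', i ≠ i' → ¬ Co p q (u i) (u i')) ∧
    (∀ j j', j ≠ j' → ¬ Co p q (v j) (v j')) ∧
    (∀ i j, ¬ Co p q (u i) (v j)) ∧
    (∀ i i' j, ¬ Co p q (u i) (m i' j)) ∧
    (∀ i j j', ¬ Co p q (v j) (m i j')) ∧
    ∀ i i' j j', (i, j) ≠ (i', j') → ¬ Co p q (m i j) (m i' j')

/-- the threshold for light pairs -/
def C0 (s t : ℕ) : ℕ := 2 * (s + t) + 2 * s * t + 1

/-! ### Conflicts -/

/-- the roots `u`, `u'` are in conflict for the centres `v`, `v'` -/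
def Bp {V X : Type} (A : V → V → Prop) (p q : V → X) (v v' u u' : V) : Prop :=
  Co p q u u' ∨ (∃ m, A v m ∧ A u m ∧ Co p q m u') ∨ (∃ m, A v' m ∧ A u m ∧ Co p q m u') ∨
  (∃ m, A v m ∧ A u m ∧ A u' m) ∨ (∃ m, A v' m ∧ A u m ∧ A u' m) ∨
  ∃ m m', A v m ∧ A u m ∧ A v' m' ∧ A u' m' ∧ Co p q m m'

/-- the root `u` is in conflict with the centres `v`, `v'` -/
def Bs {V X : Type} [Fintype V] (A : V → V → Prop) (p q : V → X) (C : ℕ) (v v' u : V) : Prop :=
  (cd A v v' < C ∧ ∃ m, A v m ∧ A v' m ∧ A u m) ∨ (∃ m, A v m ∧ A u m ∧ Co p q m v') ∨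
  ∃ m, A v' m ∧ A u m ∧ Co p q m v

/-- no conflicts -/
def Gd {V X : Type} [Fintype V] (A : V → V → Prop) (p q : V → X) (C : ℕ) {s : ℕ} (v v' : V)
    (u : Fin s → V) : Prop :=
  (∀ i i', i ≠ i' → ¬ Bp A p q v v' (u i) (u i')) ∧ ∀ i, ¬ Bs A p q C v v' (u i)

/-- the moment `Σ_{v,v'} |L(v) ∩ L(v')|^s` -/
def XX {V : Type} [Fintype V] (A : V → V → Prop) (C s : ℕ) : ℕ :=
  ∑ v, ∑ v', (Ls A C v ∩ Ls A C v').card ^ s

/-- the part of `XX` given by different centres with the same first entry -/
def S1 {V X : Type} [Fintype V] (A : V → V → Prop) (p : V → X) (C s : ℕ) : ℕ :=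
  ∑ v, ∑ v' ∈ Finset.univ.filter (fun v' => v' ≠ v ∧ p v' = p v), (Ls A C v ∩ Ls A C v').card ^ s

/-- configuration for collinear centres: roots `u i` in the neighbourhood of `m`, pairwise with
less than `C` common neighbours, and `t` neighbours `v j` of `m` such that at least `C1` vertices
with the same first entry as `v j` form light pairs with all roots -/
def Cfg {V X : Type} [Fintype V] (A : V → V → Prop) (p : V → X) (C C1 s t : ℕ) : Prop :=
  ∃ (m : V) (u : Fin s → V) (v : Fin t → V), (∀ i, A m (u i)) ∧
    (∀ i i', i ≠ i' → u i ≠ u i' ∧ cd A (u i) (u i') < C) ∧ (∀ j, A m (v j)) ∧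
    Function.Injective v ∧
    ∀ j, C1 ≤ (Finset.univ.filter fun v' => p v' = p (v j) ∧ ∀ i, Lg A C v' (u i)).card

/-! ### Pair graphs of colourings -/

/-- the pair graph of `χ` for the partition `ω`: first entries in the part `true`, second entries in
the part `false` -/
def Gb {V K : Type} (χ : V → V → K) (ω : V → Bool) (u w : V × V) : Prop :=
  Ga χ u w ∧ ω u.1 = true ∧ ω w.1 = true ∧ ω u.2 = false ∧ ω w.2 = false

/-- the spider with `s` legs of length `2`, rooted at the `s` ends: inner vertex `0` is the centre,
inner vertex `i + 1` is the middle of the leg `i` -/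
def spider (s : ℕ) : Rooted where
  r := s
  v := s + 1
  e := s + s
  ed k := Fin.addCases (fun i => (Sum.inl i, Sum.inr i.succ)) (fun i => (Sum.inr 0, Sum.inr i.succ)) k
  inj := by
    intro a b h
    induction a using Fin.addCases with
    | left i =>
      induction b using Fin.addCases with
      | left j =>
        simp only [Fin.addCases_left, Sym2.eq_iff] at h
        rcases h with ⟨h1, -⟩ | ⟨h1, -⟩
        · rw [Sum.inl.inj h1]
        · cases h1
      | right j =>
        simp only [Fin.addCases_left, Fin.addCases_right, Sym2.eq_iff] at h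
        rcases h with ⟨h1, -⟩ | ⟨h1, -⟩ <;> cases h1
    | right i =>
      induction b using Fin.addCases with
      | left j =>
        simp only [Fin.addCases_left, Fin.addCases_right, Sym2.eq_iff] at h
        rcases h with ⟨h1, -⟩ | ⟨-, h1⟩ <;> cases h1
      | right j =>
        simp only [Fin.addCases_right, Sym2.eq_iff] at h
        rcases h with ⟨-, h1⟩ | ⟨h1, -⟩
        · rw [Fin.succ_injective _ (Sum.inr.inj h1)]
        · exact absurd (Sum.inr.inj h1).symm (Fin.succ_ne_zero _)
  loopless := by
    intro a h
    induction a using Fin.addCases with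
    | left i =>
      simp only [Fin.addCases_left] at h
      cases h
    | right i =>
      simp only [Fin.addCases_right] at h
      exact absurd (Sum.inr.inj h).symm (Fin.succ_ne_zero _)

end

end Pool.Agent.KS
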